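import Mathlib
import Pool.Agent.W968.SSC.KM
import Pool.Agent.Helper227.Test

set_option autoImplicit false

namespace Pool.Agent.Results.MP_8e1844_lc.ShiftComplexWeakEquiv

open Pool.Agent.Helper227 Pool.Agent.W968.SCx Pool.Agent.W968.SSC

/-- For every real `δ` with `0 < δ < 1` (in particular every rational one) one has
`SC(δ) ≡_w SSC(δ)`: every strongly `δ`-shift complex sequence computes a `δ`-shift complex
sequence, and every `δ`-shift complex sequence computes a strongly `δ`-shift complex sequence. -/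
theorem result (U : List Bool →. List Bool) (hU : IsUniversal U) (M : List Bool → ℝ)
    (hM : IsUniversalSM M) (δ : ℝ) (hδ : 0 < δ) (_hδ1 : δ < 1) :
    WeakLe (SC U δ) (SSC M δ) ∧ WeakLe (SSC M δ) (SC U δ) :=
  ⟨fun Y hY => ⟨Y, (main hU hM hδ).1 Y hY, TLe.refl Y⟩,
    fun X hX => (main hU hM hδ).2 X hX⟩

end Pool.Agent.Results.MP_8e1844_lc.ShiftComplexWeakEquiv
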